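import Pool.Agent.Q97.RI.Meas
import Pool.Agent.Q240.EX.Stm2
import Pool.Agent.Q240.CD.All
import Pool.Agent.Y23.Kc1

set_option autoImplicit false

/-!
# Project RG: positive solutions of the explicit formula
-/

open Complex Filter Topology Set Metric MeasureTheory
open scoped ComplexConjugate
open Pool.Agent.H24R2.JP (XX)
open Pool.Agent.Q240.CD
open Pool.Agent.Q240.EX

namespace Pool.Agent.Q97.RI

/-- the measure is comparable with the form -/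
def Rp (a : ℝ) (ν : ℕ∞) (α β : ℝ) (μ : Measure ℝ) : Prop := ∀ f : ℝ → ℂ, Y23.G.F.Hn a ν f →
  Integrable (fun t : ℝ => ‖Y23.TT f (t * I)‖ ^ 2) μ ∧ α * Y23.QQ f ≤ ∫ t : ℝ, ‖Y23.TT f (t * I)‖ ^ 2 ∂μ ∧
    ∫ t : ℝ, ‖Y23.TT f (t * I)‖ ^ 2 ∂μ ≤ β * Y23.QQ f

/-- the measure of the ordinates -/
noncomputable def zm : Measure ℝ := Measure.sum fun ρ : Y23.Zt => (Y23.mu ρ : ENNReal) • Measure.dirac (ρ : ℂ).im

lemma le_sq {a b : ℝ} (h : a ^ 2 ≤ b ^ 2) (hb : 0 ≤ b) : a ≤ b := (le_abs_self a).trans (abs_le_of_sq_le_sq h hb)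

lemma zm_int {h : ℝ → ℝ} (hm : Continuous h) (h0 : ∀ t, 0 ≤ h t) (hs : Summable fun ρ : Y23.Zt => (Y23.mu ρ : ℝ) * h (ρ : ℂ).im) :
    Integrable h zm ∧ ∫ t, h t ∂zm = ∑' ρ : Y23.Zt, (Y23.mu ρ : ℝ) * h (ρ : ℂ).im := by
  have hnn : ∀ ρ : Y23.Zt, 0 ≤ (Y23.mu ρ : ℝ) * h (ρ : ℂ).im := fun ρ => mul_nonneg (Nat.cast_nonneg _) (h0 _)
  have h1 : ∫⁻ t, ENNReal.ofReal (h t) ∂zm = ENNReal.ofReal (∑' ρ : Y23.Zt, (Y23.mu ρ : ℝ) * h (ρ : ℂ).im) := by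
    unfold zm
    rw [lintegral_sum_measure, ENNReal.ofReal_tsum_of_nonneg hnn hs]
    refine tsum_congr fun ρ => ?_
    rw [lintegral_smul_measure, lintegral_dirac' _ (by fun_prop), ENNReal.ofReal_mul (Nat.cast_nonneg _), ENNReal.ofReal_natCast]
    rfl
  have h2 : Integrable h zm := ⟨hm.aestronglyMeasurable, by
    rw [hasFiniteIntegral_iff_ofReal (ae_of_all _ h0), h1]
    exact ENNReal.ofReal_lt_top⟩
  refine ⟨h2, ?_⟩
  rw [integral_eq_lintegral_of_nonneg_ae (ae_of_all _ h0) hm.aestronglyMeasurable, h1, ENNReal.toReal_ofReal (tsum_nonneg hnn)]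

lemma line_eq (hRH : RHy) (ρ : Y23.Zt) : ((ρ : ℂ).im : ℂ) * I = (ρ : ℂ) - 1 / 2 := by
  apply Complex.ext
  · simp [hRH ρ]
  · simp

lemma cont_TT {a : ℝ} {f : ℝ → ℂ} (hf : Y23.Fa a f) : Continuous (fun t : ℝ => ‖Y23.TT f (t * I)‖ ^ 2) :=
  (((Y23.differentiable_TT hf).continuous.comp (by fun_prop : Continuous fun t : ℝ => (t : ℂ) * I)).norm).pow 2

/-- under the Riemann hypothesis the ordinates are a solution -/
theorem zm_Rp (hRH : RHy) {a : ℝ} (ha : 0 < a) {ν : ℕ∞} {f : ℝ → ℂ} (hf : Y23.G.F.Hn a ν f) :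
    Integrable (fun t : ℝ => ‖Y23.TT f (t * I)‖ ^ 2) zm ∧ ∫ t : ℝ, ‖Y23.TT f (t * I)‖ ^ 2 ∂zm = Y23.QQ f := by
  have h1 : Summable fun ρ : Y23.Zt => (Y23.mu ρ : ℝ) * ‖Y23.TT f (((ρ : ℂ).im : ℂ) * I)‖ ^ 2 := by
    have := Y23.Hd.dom ha hf.hd
    unfold Y23.Dom at this
    refine this.congr fun ρ => ?_
    rw [line_eq hRH ρ]
  obtain ⟨h2, h3⟩ := zm_int (h := fun t : ℝ => ‖Y23.TT f (t * I)‖ ^ 2) (cont_TT hf.hd.1) (fun t => sq_nonneg _) h1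
  refine ⟨h2, ?_⟩
  rw [h3, Y23.QQ_eq_SS hRH]
  unfold Y23.SS
  refine tsum_congr fun ρ => ?_
  rw [line_eq hRH ρ]

/-- the limit function -/
noncomputable def Gz (γ : ℕ → ℝ) (z : ℂ) : ℂ := GC (fun j => γ j ^ 2) (z ^ 2)

lemma EN_gpos {γ : ℕ → ℝ} (h : EN γ) (j : ℕ) : 0 < γ j := lt_of_lt_of_le h.pos (h.mono.monotone (Nat.zero_le j))

lemma EN_sm {γ : ℕ → ℝ} (h : EN γ) : StrictMono fun j => γ j ^ 2 := fun i _ hij =>
  pow_lt_pow_left₀ (h.mono hij) (EN_gpos h i).le two_ne_zero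

lemma rp_eq' {x : ℝ} (hx : 0 < x) : 1 / x = x ^ (-(1 / 8) : ℝ) * (1 / x ^ (7 / 8 : ℝ)) := by
  rw [one_div (x ^ (7 / 8 : ℝ)), ← Real.rpow_neg hx.le, ← Real.rpow_add hx, show (-(1 / 8) + -(7 / 8) : ℝ) = -1 by norm_num,
    Real.rpow_neg_one, one_div]

lemma EN_sum {γ : ℕ → ℝ} (h : EN γ) : Summable fun j => 1 / (γ j ^ 2) := by
  have h1 : Summable fun j => 1 / (γ j ^ 2) ^ (7 / 8 : ℝ) := by
    refine Summable.of_nonneg_of_le (fun j => ?_) (fun j => ?_) h.sum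
    · exact div_nonneg zero_le_one (Real.rpow_nonneg (sq_nonneg _) _)
    · refine div_le_div_of_nonneg_right ?_ (Real.rpow_nonneg (sq_nonneg _) _)
      exact_mod_cast h.m1 j
  refine Summable.of_nonneg_of_le (fun j => ?_) (fun j => ?_) (h1.mul_left ((γ 0 ^ 2) ^ (-(1 / 8) : ℝ)))
  · exact div_nonneg zero_le_one (sq_nonneg _)
  · have hx : 0 < γ j ^ 2 := pow_pos (EN_gpos h j) 2
    rw [rp_eq' hx]
    refine mul_le_mul_of_nonneg_right ?_ (div_nonneg zero_le_one (Real.rpow_nonneg (sq_nonneg _) _))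
    exact Real.rpow_le_rpow_of_nonpos (pow_pos h.pos 2) ((EN_sm h).monotone (Nat.zero_le j)) (by norm_num)

lemma Gz_diff {γ : ℕ → ℝ} (h : EN γ) : Differentiable ℂ (Gz γ) := by
  have h1 := (a_gcb (fun j => γ j ^ 2) (EN_sm h) (pow_pos h.pos 2) (EN_sum h)).1
  exact h1.comp (by fun_prop)

lemma Gz_zero {γ : ℕ → ℝ} (h : EN γ) (x : ℝ) : Gz γ x = 0 ↔ ∃ j, x = γ j ∨ x = -γ j := by
  have h1 := (a_gcb (fun j => γ j ^ 2) (EN_sm h) (pow_pos h.pos 2) (EN_sum h)).2.2.1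
  unfold Gz
  rw [h1]
  refine exists_congr fun j => ?_
  rw [← Complex.ofReal_pow]
  constructor
  · intro h2
    have h3 : x ^ 2 = γ j ^ 2 := by exact_mod_cast h2
    exact sq_eq_sq_iff_eq_or_eq_neg.1 h3
  · rintro (h2 | h2) <;> rw [h2]
    rw [neg_sq]

lemma Gz_XX {γ : ℕ → ℝ} (h : EN γ) (x : ℝ) : Gz γ x = 0 ↔ XX (I * x) = 0 := by
  rw [Gz_zero h, h.zer]
  refine exists_congr fun j => ?_
  norm_cast

lemma Gz_simple {γ : ℕ → ℝ} (h : EN γ) (x : ℝ) (hx : Gz γ x = 0) : deriv (Gz γ) x ≠ 0 := by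
  have hg := a_gcb (fun j => γ j ^ 2) (EN_sm h) (pow_pos h.pos 2) (EN_sum h)
  obtain ⟨j, hj⟩ := (Gz_zero h x).1 hx
  have hx2 : ((x : ℂ)) ^ 2 = ((γ j ^ 2 : ℝ) : ℂ) := by
    rw [← Complex.ofReal_pow]
    rcases hj with h2 | h2 <;> rw [h2]
    rw [neg_sq]
  have hx0 : (x : ℂ) ≠ 0 := by
    have := EN_gpos h j
    rw [Complex.ofReal_ne_zero]
    rcases hj with h2 | h2 <;> rw [h2] <;> linarith
  have h1 : HasDerivAt (Gz γ) (deriv (GC fun j => γ j ^ 2) ((x : ℂ) ^ 2) * (2 * (x : ℂ))) (x : ℂ) := by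
    have h3 : HasDerivAt (fun z : ℂ => z ^ 2) (2 * (x : ℂ)) (x : ℂ) := by simpa using hasDerivAt_pow 2 (x : ℂ)
    exact (hg.1 ((x : ℂ) ^ 2)).hasDerivAt.comp (x : ℂ) h3
  rw [h1.deriv, hx2]
  exact mul_ne_zero (hg.2.2.2.1 j) (mul_ne_zero two_ne_zero hx0)

lemma Gz_fin {γ : ℕ → ℝ} (h : EN γ) (R : ℝ) : {x : ℝ | |x| ≤ R ∧ Gz γ x = 0}.Finite := by
  have h1 := Pool.Agent.Q16.CD.g_top (g := fun j => γ j ^ 2) (fun j => pow_pos (EN_gpos h j) 2) (EN_sum h)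
  obtain ⟨J, hJ⟩ := eventually_atTop.1 (h1.eventually_ge_atTop ((|R| + 1) ^ 2))
  have h2 : {x : ℝ | |x| ≤ R ∧ Gz γ x = 0} ⊆ ((Finset.range J).image γ ∪ (Finset.range J).image fun j => -γ j : Finset ℝ) := by
    rintro x ⟨hx, hx2⟩
    obtain ⟨j, hj⟩ := (Gz_zero h x).1 hx2
    have hjJ : j < J := by
      by_contra hcon
      push Not at hcon
      have h3 := hJ j hcon
      have h4 : |R| + 1 ≤ γ j := by
        exact le_sq h3 (EN_gpos h j).le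
      have h5 : |x| = γ j := by
        rcases hj with h6 | h6 <;> rw [h6]
        · exact abs_of_pos (EN_gpos h j)
        · rw [abs_neg, abs_of_pos (EN_gpos h j)]
      have := le_abs_self R
      linarith
    simp only [Finset.coe_union, Finset.coe_image, Finset.coe_range, Set.mem_union, Set.mem_image, Set.mem_Iio]
    rcases hj with h6 | h6
    · exact Or.inl ⟨j, hjJ, h6.symm⟩
    · exact Or.inr ⟨j, hjJ, h6.symm⟩
  exact (Finset.finite_toSet _).subset h2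

/-- two entire functions -/
lemma dslope_uniq {F H : ℂ → ℂ} (hF : Differentiable ℂ F) (hH : Continuous H) (x : ℂ) (hx : F x = 0) (h : ∀ z, (z - x) * H z = F z) (z : ℂ) :
    dslope F x z = H z := by
  have h1 : Continuous (dslope F x) := by
    have := (Complex.differentiableOn_dslope (f := F) (c := x) (s := univ) univ_mem).2 hF.differentiableOn
    exact continuousOn_univ.1 this.continuousOn
  have h2 : Set.EqOn (dslope F x) H {x}ᶜ := by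
    intro w hw
    have hne : w ≠ x := hw
    rw [dslope_of_ne _ hne, slope_def_field, hx, sub_zero, ← h w, mul_div_cancel_left₀ _ (sub_ne_zero.2 hne)]
  exact congrFun (Continuous.ext_on (dense_compl_singleton x) h1 hH h2) z

lemma Rp.mono {a : ℝ} {ν ν' : ℕ∞} (h : ν ≤ ν') {α β : ℝ} {μ : Measure ℝ} (hμ : Rp a ν' α β μ) : Rp a ν α β μ := fun f hf =>
  hμ f ⟨hf.1, hf.2.1, fun k hk => hf.2.2 k (lt_of_le_of_lt h hk)⟩

lemma big_mono {K K' a : ℝ} {ν : ℕ∞} (h : K ≤ K') (hb : Big K' a ν) : Big K a ν := by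
  unfold Big at *
  refine le_trans ?_ hb
  exact_mod_cast Nat.ceil_mono (mul_le_mul_of_nonneg_right h (sq_nonneg a))

end Pool.Agent.Q97.RI
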