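import Pool.Agent.Q97.RI.LocR

set_option autoImplicit false

/-!
# Project RG: the corrected Lagrange functions and the intervals
-/

open Complex Filter Topology Set Metric
open scoped ComplexConjugate

namespace Pool.Agent.Q97.RI

/-- the interval around a point -/
def Bk (r : ℝ → ℝ) (x : ℝ) : Set ℝ := Icc (x - r x) (x + r x)

lemma mem_Bk {r : ℝ → ℝ} {x y : ℝ} : y ∈ Bk r x ↔ |y - x| ≤ r x := by
  unfold Bk
  rw [mem_Icc, abs_le]
  constructor <;> rintro ⟨h1, h2⟩ <;> constructor <;> linarith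

lemma fin_lb (S : Finset ℝ) (f : ℝ → ℝ) (hf : ∀ x ∈ S, 0 < f x) : ∃ e : ℝ, 0 < e ∧ ∀ x ∈ S, e ≤ f x := by
  induction S using Finset.induction_on with
  | empty => exact ⟨1, one_pos, fun x hx => absurd hx (Finset.notMem_empty x)⟩
  | insert a S ha ih =>
    obtain ⟨e, he, h⟩ := ih fun x hx => hf x (Finset.mem_insert_of_mem hx)
    refine ⟨min e (f a), lt_min he (hf a (Finset.mem_insert_self a S)), fun x hx => ?_⟩
    rcases Finset.mem_insert.1 hx with rfl | hx
    · exact min_le_right _ _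
    · exact (min_le_left _ _).trans (h x hx)

lemma fin_ub (S : Finset ℝ) (f : ℝ → ℝ) : ∃ e : ℝ, 1 ≤ e ∧ ∀ x ∈ S, f x ≤ e := by
  induction S using Finset.induction_on with
  | empty => exact ⟨1, le_rfl, fun x hx => absurd hx (Finset.notMem_empty x)⟩
  | insert a S ha ih =>
    obtain ⟨e, he, h⟩ := ih
    refine ⟨max e (f a), he.trans (le_max_left _ _), fun x hx => ?_⟩
    rcases Finset.mem_insert.1 hx with rfl | hx
    · exact le_max_right _ _
    · exact (h x hx).trans (le_max_left _ _)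

lemma fin_sep (S : Finset ℝ) (x : ℝ) : ∃ d : ℝ, 0 < d ∧ ∀ y ∈ S, y ≠ x → d ≤ |x - y| := by
  obtain ⟨e, he, h⟩ := fin_lb (S.filter fun y => y ≠ x) (fun y => |x - y|) fun y hy => by
    rw [Finset.mem_filter] at hy
    exact abs_pos.2 (sub_ne_zero.2 (Ne.symm hy.2))
  exact ⟨e, he, fun y hy hne => h y (Finset.mem_filter.2 ⟨hy, hne⟩)⟩

/-- closeness on the real line -/
structure Nr (G0 : ℂ → ℂ) (R M ε : ℝ) (F : ℂ → ℂ) : Prop where
  diff : Differentiable ℂ F
  real : ∀ t : ℝ, (F t).im = 0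
  d0 : ∀ t : ℝ, |t| ≤ R → ‖F t - G0 t‖ ≤ ε
  d1 : ∀ t : ℝ, |t| ≤ R → ‖deriv F t - deriv G0 t‖ ≤ ε
  d2 : ∀ t : ℝ, |t| ≤ R → ‖deriv (deriv F) (t : ℂ)‖ ≤ M
  d3 : ∀ t : ℝ, |t| ≤ R → ‖deriv (deriv (deriv F)) (t : ℂ)‖ ≤ M

theorem glob (G0 : ℂ → ℂ) (hG : Differentiable ℂ G0) (R : ℝ) (Z : Finset ℝ)
    (hZ : ∀ x : ℝ, x ∈ Z ↔ |x| ≤ R + 1 ∧ G0 x = 0) (hsim : ∀ x : ℝ, G0 x = 0 → deriv G0 x ≠ 0) (M0 : ℝ) (hM0' : 0 < M0) :
    ∃ (r : ℝ → ℝ) (C ε : ℝ), 1 ≤ C ∧ 0 < ε ∧ ∀ F : ℂ → ℂ, Nr G0 (R + 2) M0 ε F →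
      (∀ x0 ∈ Z, ∃ (x : ℝ) (κ : ℂ), |x| ≤ R + 2 ∧ F x = 0 ∧ deriv F x ≠ 0 ∧
        ∀ t : ℝ, |‖dslope F x t / deriv F x - κ * F t‖ ^ 2 - (Bk r x0).indicator 1 t| ≤ C * ‖F t‖ ^ 2) ∧
      ∀ s t η : ℝ, |s| ≤ R → |t| ≤ R → 0 < η → η ≤ 1 → (∀ x0 ∈ Z, η ≤ |s - x0| ∧ η ≤ |t - x0| ∧ C * ‖F x0‖ ≤ η) →
        ∀ y : ℝ, |(Ioo s t).indicator 1 y - ∑ x0 ∈ Z.filter (fun x0 => s < x0 ∧ x0 < t), (Bk r x0).indicator 1 y| ≤
          C / η ^ 2 * ‖F y‖ ^ 2 := by
  -- the radii
  have h1 : ∀ x0 : ℝ, ∃ r1 : ℝ, 0 < r1 ∧ r1 ≤ 1 ∧ ∀ y ∈ Z, y ≠ x0 → 3 * r1 ≤ |x0 - y| := by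
    intro x0
    obtain ⟨d, hd, h⟩ := fin_sep Z x0
    refine ⟨min 1 (d / 3), by positivity, min_le_left _ _, fun y hy hne => ?_⟩
    have := h y hy hne
    have h3 : min 1 (d / 3) ≤ d / 3 := min_le_right _ _
    linarith
  choose r1 hr0 hr1 hr2 using h1
  have h2 : ∀ x0 : ℝ, ∃ r C ε : ℝ, 0 < r ∧ r ≤ r1 x0 ∧ 1 ≤ C ∧ 0 < ε ∧ (x0 ∈ Z → ∀ F : ℂ → ℂ, Nr G0 (R + 2) M0 ε F →
      ∃ (x : ℝ) (κ : ℂ), ‖κ‖ ≤ C ∧ |x - x0| ≤ r / 2 ∧ |x - x0| ≤ C * ‖F x0‖ ∧ F x = 0 ∧ C⁻¹ ≤ ‖deriv F x‖ ∧
        ∀ t : ℝ, |t - x0| ≤ r → |t - x| ≤ C * ‖F t‖ ∧ ‖dslope F x t / deriv F x - κ * F t - 1‖ ≤ C * |t - x| ^ 2) := by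
    intro x0
    by_cases hx : x0 ∈ Z
    · obtain ⟨hxa, hxb⟩ := (hZ x0).1 hx
      have hdp : 0 < ‖deriv G0 x0‖ := norm_pos_iff.2 (hsim x0 hxb)
      obtain ⟨r, C, e, a1, a2, a3, a4, a5⟩ := locR (r1 x0) (‖deriv G0 x0‖ / 2) M0 (hr0 x0) (by positivity) hM0'
      refine ⟨r, C, min e (‖deriv G0 x0‖ / 2), a1, a2, a3, by positivity, fun _ F hF => ?_⟩
      have hxR : |x0| ≤ R + 2 := by linarith
      refine a5 F x0 hF.diff hF.real (fun t ht => ?_) ?_ ?_
      · have htR : |t| ≤ R + 2 := by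
          calc |t| = |(t - x0) + x0| := by congr 1; ring
            _ ≤ |t - x0| + |x0| := abs_add_le _ _
            _ ≤ 1 + (R + 1) := add_le_add (ht.trans (hr1 x0)) hxa
            _ = R + 2 := by ring
        exact ⟨hF.d2 t htR, hF.d3 t htR⟩
      · have h3 := (hF.d1 x0 hxR).trans (min_le_right _ _)
        have h4 : ‖deriv G0 x0‖ ≤ ‖deriv F x0‖ + ‖deriv F x0 - deriv G0 x0‖ := by
          calc ‖deriv G0 x0‖ = ‖deriv F x0 - (deriv F x0 - deriv G0 x0)‖ := by congr 1; ring
            _ ≤ _ := norm_sub_le _ _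
        linarith
      · have h3 := (hF.d0 x0 hxR).trans (min_le_left _ _)
        rwa [hxb, sub_zero] at h3
    · exact ⟨r1 x0, 1, 1, hr0 x0, le_rfl, le_rfl, one_pos, fun h => absurd h hx⟩
  choose r C ε hrp hrr hC1 hε hloc using h2
  obtain ⟨M, hM1, hM⟩ := fin_ub Z C
  obtain ⟨e, he, he2⟩ := fin_lb Z ε fun x _ => hε x
  obtain ⟨ρ, hρ, hρ2⟩ := fin_lb Z r fun x _ => hrp x
  have hMp : 0 < M := by linarith
  -- the compact set
  set K : Set ℝ := Icc (-(R + 1)) (R + 1) ∩ {y : ℝ | ∀ x0 ∈ Z, r x0 ≤ |y - x0|} with hK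
  have hKc : IsCompact K := by
    refine isCompact_Icc.inter_right ?_
    have : {y : ℝ | ∀ x0 ∈ Z, r x0 ≤ |y - x0|} = ⋂ x0 ∈ Z, {y : ℝ | r x0 ≤ |y - x0|} := by
      ext y
      simp
    rw [this]
    exact isClosed_biInter fun x0 _ => isClosed_le continuous_const (by fun_prop)
  obtain ⟨c, hc, hc2⟩ := hKc.exists_forall_le' (f := fun y : ℝ => ‖G0 y‖) (a := 0)
    ((hG.continuous.comp Complex.continuous_ofReal).norm.continuousOn) (fun y hy => by
      rw [norm_pos_iff]
      intro h0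
      have h3 : y ∈ Z := (hZ y).2 ⟨abs_le.2 hy.1, h0⟩
      have h4 := hy.2 y h3
      rw [sub_self, abs_zero] at h4
      exact absurd h4 (not_le.2 (hrp y)))
  set C2 : ℝ := (2 * M / ρ + M) ^ 2 with hC2
  have hC20 : 0 ≤ C2 := sq_nonneg _
  set C3 : ℝ := M * (4 * M + 2) * M ^ 2 with hC3
  have hC30 : 0 ≤ C3 := by positivity
  set C4 : ℝ := 4 * M ^ 2 + 2 * M + 4 / c ^ 2 with hC4
  have hC40 : 0 ≤ C4 := by positivity
  refine ⟨r, 1 + C2 + C3 + C4, min e (c / 2), by linarith, lt_min he (by linarith), fun F hF => ?_⟩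
  have hin : ∀ x0 ∈ Z, |x0| ≤ R + 1 := fun x0 hx => ((hZ x0).1 hx).1
  have hNr : ∀ x0 ∈ Z, Nr G0 (R + 2) M0 (ε x0) F := fun x0 hx => ⟨hF.diff, hF.real,
    fun t ht => (hF.d0 t ht).trans ((min_le_left _ _).trans (he2 x0 hx)), fun t ht => (hF.d1 t ht).trans ((min_le_left _ _).trans (he2 x0 hx)),
    hF.d2, hF.d3⟩
  have hlow : ∀ y : ℝ, |y| ≤ R + 1 → (∀ x0 ∈ Z, r x0 ≤ |y - x0|) → c / 2 ≤ ‖F y‖ := by
    intro y hy hy2
    have a1 : c ≤ ‖G0 y‖ := hc2 y ⟨abs_le.1 hy, hy2⟩
    have a2 := (hF.d0 y (by linarith)).trans (min_le_right _ _)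
    have a3 : ‖G0 y‖ ≤ ‖F y‖ + ‖F y - G0 y‖ := by
      calc ‖G0 y‖ = ‖F y - (F y - G0 y)‖ := by congr 1; ring
        _ ≤ _ := norm_sub_le _ _
    linarith
  have hone : ∀ (A : Set ℝ) (y : ℝ), y ∈ A → A.indicator (1 : ℝ → ℝ) y = 1 := fun A y h => by rw [indicator_of_mem h]; rfl
  refine ⟨fun x0 hx => ?_, ?_⟩
  · obtain ⟨x, κ, b1, b2, b3, b4, b5, b6⟩ := hloc x0 hx F (hNr x0 hx)
    have hCM := hM x0 hx
    have hC0 : 0 < C x0 := by linarith [hC1 x0]
    have hdp : 0 < ‖deriv F x‖ := lt_of_lt_of_le (inv_pos.2 hC0) b5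
    have hdne : deriv F x ≠ 0 := norm_pos_iff.1 hdp
    have hxx : |x - x0| ≤ 1 := by
      have := hrp x0
      have := hrr x0
      have := hr1 x0
      linarith
    refine ⟨x, κ, ?_, b4, hdne, fun t => ?_⟩
    · calc |x| = |(x - x0) + x0| := by congr 1; ring
        _ ≤ |x - x0| + |x0| := abs_add_le _ _
        _ ≤ 1 + (R + 1) := add_le_add hxx (hin x0 hx)
        _ = R + 2 := by ring
    · set g : ℂ := dslope F x t / deriv F x - κ * F t with hg
      by_cases ht : |t - x0| ≤ r x0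
      · obtain ⟨d1, d2⟩ := b6 t ht
        rw [hone _ _ (mem_Bk.2 ht)]
        have e1 : |t - x| ≤ 2 := by
          calc |t - x| = |(t - x0) - (x - x0)| := by congr 1; ring
            _ ≤ |t - x0| + |x - x0| := abs_sub _ _
            _ ≤ 1 + 1 := add_le_add (ht.trans ((hrr x0).trans (hr1 x0))) hxx
            _ = 2 := by norm_num
        have e2 : |‖g‖ ^ 2 - 1| ≤ ‖g - 1‖ * (‖g - 1‖ + 2) := by
          have f1 : |‖g‖ - 1| ≤ ‖g - 1‖ := by
            have := abs_norm_sub_norm_le g 1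
            rwa [norm_one] at this
          have f2 : ‖g‖ ≤ ‖g - 1‖ + 1 := by linarith [(abs_le.1 f1).2]
          have f3 : |‖g‖ ^ 2 - 1| = |‖g‖ - 1| * (‖g‖ + 1) := by
            rw [show ‖g‖ ^ 2 - 1 = (‖g‖ - 1) * (‖g‖ + 1) by ring, abs_mul, abs_of_nonneg (by positivity : 0 ≤ ‖g‖ + 1)]
          rw [f3]
          refine mul_le_mul f1 (by linarith) (by positivity) (norm_nonneg _)
        have e3 : ‖g - 1‖ ≤ M * |t - x| ^ 2 := d2.trans (mul_le_mul_of_nonneg_right hCM (sq_nonneg _))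
        have e4 : M * |t - x| ^ 2 ≤ 4 * M := by
          have : |t - x| ^ 2 ≤ 2 ^ 2 := pow_le_pow_left₀ (abs_nonneg _) e1 2
          nlinarith
        have e5 : |t - x| ^ 2 ≤ M ^ 2 * ‖F t‖ ^ 2 := by
          rw [← mul_pow]
          exact pow_le_pow_left₀ (abs_nonneg _) (d1.trans (mul_le_mul_of_nonneg_right hCM (norm_nonneg _))) 2
        have e6 : (0 : ℝ) ≤ ‖F t‖ ^ 2 := sq_nonneg _
        calc |‖g‖ ^ 2 - 1| ≤ ‖g - 1‖ * (‖g - 1‖ + 2) := e2
          _ ≤ (M * |t - x| ^ 2) * (4 * M + 2) := mul_le_mul e3 (by linarith) (by positivity) (by positivity)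
          _ ≤ (M * (M ^ 2 * ‖F t‖ ^ 2)) * (4 * M + 2) := by gcongr
          _ = C3 * ‖F t‖ ^ 2 := by rw [hC3]; ring
          _ ≤ _ := mul_le_mul_of_nonneg_right (by linarith) e6
      · rw [indicator_of_notMem (fun h => ht (mem_Bk.1 h)), sub_zero]
        push Not at ht
        have hne : (t : ℂ) ≠ x := by
          intro h
          have : t = x := by exact_mod_cast h
          rw [this] at ht
          have := hrp x0
          linarith
        have f1 : ρ / 2 ≤ |t - x| := by
          have a1 : |t - x0| ≤ |t - x| + |x - x0| := by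
            calc |t - x0| = |(t - x) + (x - x0)| := by congr 1; ring
              _ ≤ _ := abs_add_le _ _
          have a2 := hρ2 x0 hx
          linarith
        have f2 : ‖dslope F x t‖ ≤ ‖F t‖ * (2 / ρ) := by
          rw [dslope_of_ne _ hne, slope_def_field, b4, sub_zero, norm_div, ← Complex.ofReal_sub, Complex.norm_real, Real.norm_eq_abs,
            div_eq_mul_inv]
          refine mul_le_mul_of_nonneg_left ?_ (norm_nonneg _)
          rw [inv_le_comm₀ (by linarith) (by positivity), inv_div]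
          exact f1
        have f3 : ‖g‖ ≤ (2 * M / ρ + M) * ‖F t‖ := by
          calc ‖g‖ ≤ ‖dslope F x t / deriv F x‖ + ‖κ * F t‖ := norm_sub_le _ _
            _ = ‖dslope F x t‖ * ‖deriv F x‖⁻¹ + ‖κ‖ * ‖F t‖ := by rw [norm_div, norm_mul, div_eq_mul_inv]
            _ ≤ (‖F t‖ * (2 / ρ)) * M + M * ‖F t‖ := by
                have g1 : ‖deriv F x‖⁻¹ ≤ M := by
                  rw [inv_le_comm₀ hdp hMp]
                  exact (inv_anti₀ hC0 hCM).trans b5
                have g2 : ‖κ‖ ≤ M := b1.trans hCM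
                gcongr
            _ = _ := by ring
        have f4 : ‖g‖ ^ 2 ≤ C2 * ‖F t‖ ^ 2 := by
          rw [hC2, ← mul_pow]
          exact pow_le_pow_left₀ (norm_nonneg _) f3 2
        rw [abs_of_nonneg (sq_nonneg _)]
        exact f4.trans (mul_le_mul_of_nonneg_right (by linarith) (sq_nonneg _))
  · intro s t η hs ht hη hη1 hfar y
    have hη2 : 0 < η ^ 2 := by positivity
    have hCη : (0 : ℝ) ≤ (1 + C2 + C3 + C4) / η ^ 2 * ‖F y‖ ^ 2 := by positivity
    by_cases hy : |y| ≤ R + 1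
    · by_cases hyB : ∃ x1 ∈ Z, |y - x1| < r x1
      · obtain ⟨x1, hx1, hyx⟩ := hyB
        have huniq : ∀ x0 ∈ Z, y ∈ Bk r x0 → x0 = x1 := by
          intro x0 hx0 h3
          by_contra hne
          have a1 := hr2 x1 x0 hx0 hne
          have a2 := hr2 x0 x1 hx1 (Ne.symm hne)
          have a3 := mem_Bk.1 h3
          have a4 : |x0 - x1| ≤ |y - x0| + |y - x1| := by
            calc |x0 - x1| = |(y - x1) - (y - x0)| := by congr 1; ring
              _ ≤ |y - x1| + |y - x0| := abs_sub _ _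
              _ = _ := by ring
          have a5 := hrr x0
          have a6 := hrr x1
          have a7 := hr0 x0
          have a8 := hr0 x1
          rw [abs_sub_comm] at a1
          linarith
        have hsum : ∑ x0 ∈ Z.filter (fun x0 => s < x0 ∧ x0 < t), (Bk r x0).indicator (1 : ℝ → ℝ) y = (Ioo s t).indicator (1 : ℝ → ℝ) x1 := by
          by_cases hx1s : x1 ∈ Ioo s t
          · rw [hone _ _ hx1s]
            refine (Finset.sum_eq_single_of_mem x1 (Finset.mem_filter.2 ⟨hx1, hx1s.1, hx1s.2⟩) (fun b hb hne => ?_)).trans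
              (hone _ _ (mem_Bk.2 hyx.le))
            rw [Finset.mem_filter] at hb
            exact indicator_of_notMem (fun h4 => hne (huniq b hb.1 h4)) _
          · rw [indicator_of_notMem hx1s]
            refine Finset.sum_eq_zero fun b hb => ?_
            rw [Finset.mem_filter] at hb
            rw [indicator_of_notMem]
            intro h4
            exact hx1s (huniq b hb.1 h4 ▸ hb.2)
        rw [hsum]
        obtain ⟨g1, g2, g3⟩ := hfar x1 hx1
        have key : η ≤ |y - x1| → (1 : ℝ) ≤ (1 + C2 + C3 + C4) / η ^ 2 * ‖F y‖ ^ 2 := by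
          intro hyη
          obtain ⟨x, κ, b1, b2, b3, b4, b5, b6⟩ := hloc x1 hx1 F (hNr x1 hx1)
          have hCM := hM x1 hx1
          obtain ⟨d1, -⟩ := b6 y hyx.le
          have a1 : |x - x1| ≤ η / 2 := by
            calc |x - x1| ≤ C x1 * ‖F x1‖ := b3
              _ ≤ M * ‖F x1‖ := mul_le_mul_of_nonneg_right hCM (norm_nonneg _)
              _ = (2 * M * ‖F x1‖) / 2 := by ring
              _ ≤ ((1 + C2 + C3 + C4) * ‖F x1‖) / 2 := by
                  have : 2 * M ≤ 1 + C2 + C3 + C4 := by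
                    have : 0 ≤ 4 * M ^ 2 := by positivity
                    have : 0 ≤ 4 / c ^ 2 := by positivity
                    linarith
                  gcongr
              _ ≤ η / 2 := by linarith
          have a2 : η / 2 ≤ |y - x| := by
            have : |y - x1| ≤ |y - x| + |x - x1| := by
              calc |y - x1| = |(y - x) + (x - x1)| := by congr 1; ring
                _ ≤ _ := abs_add_le _ _
            linarith
          have a3 : η / 2 ≤ M * ‖F y‖ := a2.trans (d1.trans (mul_le_mul_of_nonneg_right hCM (norm_nonneg _)))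
          have a4 : (η / 2) ^ 2 ≤ M ^ 2 * ‖F y‖ ^ 2 := by
            rw [← mul_pow]
            exact pow_le_pow_left₀ (by positivity) a3 2
          have a5 : (4 * M ^ 2) * ‖F y‖ ^ 2 ≤ (1 + C2 + C3 + C4) * ‖F y‖ ^ 2 := by
            refine mul_le_mul_of_nonneg_right ?_ (sq_nonneg _)
            have : 0 ≤ 4 / c ^ 2 := by positivity
            linarith
          rw [div_mul_eq_mul_div, le_div_iff₀ hη2]
          linarith
        by_cases hx1s : x1 ∈ Ioo s t
        · rw [hone _ _ hx1s]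
          by_cases hys : y ∈ Ioo s t
          · rw [hone _ _ hys, sub_self, abs_zero]
            exact hCη
          · rw [indicator_of_notMem hys, zero_sub, abs_neg, abs_one]
            refine key ?_
            rw [mem_Ioo, not_and_or, not_lt, not_lt] at hys
            rcases hys with h4 | h4
            · rw [abs_of_nonpos (by linarith [hx1s.1])] at g1
              rw [abs_of_nonpos (by linarith [hx1s.1])]
              linarith
            · rw [abs_of_nonneg (by linarith [hx1s.2])] at g2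
              rw [abs_of_nonneg (by linarith [hx1s.2])]
              linarith
        · rw [indicator_of_notMem hx1s, sub_zero]
          by_cases hys : y ∈ Ioo s t
          · rw [hone _ _ hys, abs_one]
            refine key ?_
            rw [mem_Ioo, not_and_or, not_lt, not_lt] at hx1s
            rcases hx1s with h4 | h4
            · rw [abs_of_nonneg (by linarith)] at g1
              rw [abs_of_nonneg (by linarith [hys.1])]
              linarith [hys.1]
            · rw [abs_of_nonpos (by linarith)] at g2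
              rw [abs_of_nonpos (by linarith [hys.2])]
              linarith [hys.2]
          · rw [indicator_of_notMem hys, abs_zero]
            exact hCη
      · push Not at hyB
        have a1 := hlow y hy hyB
        have a2 : (c / 2) ^ 2 ≤ ‖F y‖ ^ 2 := pow_le_pow_left₀ (by linarith) a1 2
        have a3 : (1 : ℝ) ≤ (1 + C2 + C3 + C4) / η ^ 2 * ‖F y‖ ^ 2 := by
          have b1 : (1 : ℝ) ≤ 4 / c ^ 2 * ‖F y‖ ^ 2 := by
            rw [div_mul_eq_mul_div, le_div_iff₀ (by positivity)]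
            linarith
          have b2 : 4 / c ^ 2 * ‖F y‖ ^ 2 ≤ (1 + C2 + C3 + C4) * ‖F y‖ ^ 2 := by
            refine mul_le_mul_of_nonneg_right ?_ (sq_nonneg _)
            have : 0 ≤ 4 * M ^ 2 := by positivity
            linarith
          have b3 : (1 + C2 + C3 + C4) * ‖F y‖ ^ 2 ≤ (1 + C2 + C3 + C4) / η ^ 2 * ‖F y‖ ^ 2 := by
            refine mul_le_mul_of_nonneg_right ?_ (sq_nonneg _)
            rw [le_div_iff₀ hη2]
            have : η ^ 2 ≤ 1 := pow_le_one₀ hη.le hη1
            nlinarith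
          linarith
        refine le_trans ?_ a3
        -- at most one of the intervals contains the point
        have hle : ∑ x0 ∈ Z.filter (fun x0 => s < x0 ∧ x0 < t), (Bk r x0).indicator (1 : ℝ → ℝ) y ≤ 1 := by
          by_cases hex : ∃ x2 ∈ Z, y ∈ Bk r x2
          · obtain ⟨x2, hx2, hyx2⟩ := hex
            have huniq : ∀ x0 ∈ Z, y ∈ Bk r x0 → x0 = x2 := by
              intro x0 hx0 h3
              by_contra hne
              have a1 := hr2 x2 x0 hx0 hne
              have a2 := hr2 x0 x2 hx2 (Ne.symm hne)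
              have a3 := mem_Bk.1 h3
              have a3' := mem_Bk.1 hyx2
              have a4 : |x0 - x2| ≤ |y - x0| + |y - x2| := by
                calc |x0 - x2| = |(y - x2) - (y - x0)| := by congr 1; ring
                  _ ≤ |y - x2| + |y - x0| := abs_sub _ _
                  _ = _ := by ring
              have a5 := hrr x0
              have a6 := hrr x2
              have a7 := hr0 x0
              have a8 := hr0 x2
              rw [abs_sub_comm] at a1
              linarith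
            calc ∑ x0 ∈ Z.filter (fun x0 => s < x0 ∧ x0 < t), (Bk r x0).indicator (1 : ℝ → ℝ) y
                ≤ ∑ x0 ∈ Z.filter (fun x0 => s < x0 ∧ x0 < t), if x0 = x2 then (1 : ℝ) else 0 := by
                  refine Finset.sum_le_sum fun b hb => ?_
                  rw [Finset.mem_filter] at hb
                  split_ifs with h5
                  · exact indicator_le_self' (fun _ _ => zero_le_one) y
                  · rw [indicator_of_notMem]
                    exact fun h6 => h5 (huniq b hb.1 h6)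
              _ ≤ 1 := by
                  rw [Finset.sum_ite_eq']
                  split_ifs <;> norm_num
          · push Not at hex
            rw [Finset.sum_eq_zero fun b hb => indicator_of_notMem (hex b (Finset.mem_filter.1 hb).1) _]
            exact zero_le_one
        have hge : 0 ≤ ∑ x0 ∈ Z.filter (fun x0 => s < x0 ∧ x0 < t), (Bk r x0).indicator (1 : ℝ → ℝ) y :=
          Finset.sum_nonneg fun b _ => indicator_nonneg (fun _ _ => zero_le_one) y
        have hi1 : (Ioo s t).indicator (1 : ℝ → ℝ) y ≤ 1 := indicator_le_self' (fun _ _ => zero_le_one) y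
        have hi0 : 0 ≤ (Ioo s t).indicator (1 : ℝ → ℝ) y := indicator_nonneg (fun _ _ => zero_le_one) y
        rw [abs_le]
        constructor <;> linarith
    · push Not at hy
      have h3 : y ∉ Ioo s t := by
        intro h4
        have h5 : |y| < R + 1 := by
          rw [abs_lt]
          constructor
          · linarith [(abs_le.1 hs).1, h4.1]
          · linarith [(abs_le.1 ht).2, h4.2]
        linarith
      rw [indicator_of_notMem h3, Finset.sum_eq_zero, sub_zero, abs_zero]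
      · exact hCη
      · intro b hb
        rw [Finset.mem_filter] at hb
        rw [indicator_of_notMem]
        intro h4
        have h5 := mem_Bk.1 h4
        have h6 := (hrr b).trans (hr1 b)
        have h7 : |b| ≤ R := by
          rw [abs_le]
          constructor
          · linarith [(abs_le.1 hs).1, hb.2.1]
          · linarith [(abs_le.1 ht).2, hb.2.2]
        have h8 : |y| ≤ |y - b| + |b| := by
          calc |y| = |(y - b) + b| := by congr 1; ring
            _ ≤ _ := abs_add_le _ _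
        linarith

end Pool.Agent.Q97.RI
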