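import Mathlib

set_option autoImplicit false

/-!
# Project RG: local analysis at a simple zero, real variable
-/

open Complex Filter Topology Set Metric
open scoped ComplexConjugate

namespace Pool.Agent.Q97.RI

lemma seg {f f' : ℝ → ℂ} (hf : ∀ s, HasDerivAt f (f' s) s) {x t c : ℝ} (h : ∀ s ∈ uIcc x t, ‖f' s‖ ≤ c) : ‖f t - f x‖ ≤ c * |t - x| := by
  have := (convex_uIcc x t).norm_image_sub_le_of_norm_hasDerivWithin_le (f := f) (f' := f') (C := c) (x := x) (y := t)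
    (fun s _ => (hf s).hasDerivWithinAt) h left_mem_uIcc right_mem_uIcc
  rwa [Real.norm_eq_abs] at this

lemma mem_seg {x t s : ℝ} (h : s ∈ uIcc x t) : |s - x| ≤ |t - x| := abs_sub_left_of_mem_uIcc h

/-- second and third order Taylor bounds -/
lemma tay {F : ℂ → ℂ} (hF : Differentiable ℂ F) {x t M : ℝ} (hM : 0 ≤ M) (h : ∀ s ∈ uIcc x t, ‖deriv (deriv F) (s : ℂ)‖ ≤ M ∧ ‖deriv (deriv (deriv F)) (s : ℂ)‖ ≤ M) :
    ‖deriv F t - deriv F x‖ ≤ M * |t - x| ∧ ‖F t - F x - deriv F x * ((t : ℂ) - x)‖ ≤ M * |t - x| ^ 2 ∧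
      ‖F t - F x - deriv F x * ((t : ℂ) - x) - deriv (deriv F) x / 2 * ((t : ℂ) - x) ^ 2‖ ≤ M * |t - x| ^ 3 := by
  have hF1 : Differentiable ℂ (deriv F) := hF.deriv
  have hF2 : Differentiable ℂ (deriv (deriv F)) := hF1.deriv
  have d0 : ∀ s : ℝ, HasDerivAt (fun s : ℝ => F s) (deriv F s) s := fun s => (hF s).hasDerivAt.comp_ofReal
  have d1 : ∀ s : ℝ, HasDerivAt (fun s : ℝ => deriv F s) (deriv (deriv F) s) s := fun s => (hF1 s).hasDerivAt.comp_ofReal
  have d2 : ∀ s : ℝ, HasDerivAt (fun s : ℝ => deriv (deriv F) s) (deriv (deriv (deriv F)) s) s := fun s => (hF2 s).hasDerivAt.comp_ofReal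
  have di : ∀ s : ℝ, HasDerivAt (fun s : ℝ => ((s : ℂ) - x)) 1 s := fun s => (Complex.ofRealCLM.hasDerivAt (x := s)).sub_const _
  have key1 : ∀ s ∈ uIcc x t, ‖deriv F s - deriv F x‖ ≤ M * |s - x| := fun s hs =>
    seg d1 fun u hu => (h u (uIcc_subset_uIcc left_mem_uIcc hs hu)).1
  have key2 : ∀ s ∈ uIcc x t, ‖deriv (deriv F) s - deriv (deriv F) x‖ ≤ M * |s - x| := fun s hs =>
    seg d2 fun u hu => (h u (uIcc_subset_uIcc left_mem_uIcc hs hu)).2
  have key3 : ∀ s ∈ uIcc x t, ‖deriv F s - deriv F x - deriv (deriv F) x * ((s : ℂ) - x)‖ ≤ M * |s - x| * |s - x| := by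
    intro s hs
    have := seg (f := fun s : ℝ => deriv F s - deriv (deriv F) x * ((s : ℂ) - x)) (f' := fun s : ℝ => deriv (deriv F) s - deriv (deriv F) x * 1)
      (fun u => (d1 u).sub ((di u).const_mul _)) (x := x) (t := s) (c := M * |s - x|) (fun u hu => by
        rw [mul_one]
        refine (key2 u (uIcc_subset_uIcc left_mem_uIcc hs hu)).trans (mul_le_mul_of_nonneg_left (mem_seg hu) hM))
    have e : (deriv F s - deriv (deriv F) x * ((s : ℂ) - x)) - (deriv F x - deriv (deriv F) x * ((x : ℂ) - x)) =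
      deriv F s - deriv F x - deriv (deriv F) x * ((s : ℂ) - x) := by ring
    rwa [e] at this
  refine ⟨key1 t right_mem_uIcc, ?_, ?_⟩
  · have := seg (f := fun s : ℝ => F s - deriv F x * ((s : ℂ) - x)) (f' := fun s : ℝ => deriv F s - deriv F x * 1)
      (fun u => (d0 u).sub ((di u).const_mul _)) (x := x) (t := t) (c := M * |t - x|) (fun u hu => by
        rw [mul_one]
        refine (key1 u hu).trans (mul_le_mul_of_nonneg_left (mem_seg hu) hM))
    have e : (F t - deriv F x * ((t : ℂ) - x)) - (F x - deriv F x * ((x : ℂ) - x)) = F t - F x - deriv F x * ((t : ℂ) - x) := by ring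
    rw [e] at this
    calc _ ≤ _ := this
      _ = _ := by ring
  · have dq : ∀ s : ℝ, HasDerivAt (fun s : ℝ => deriv (deriv F) x / 2 * ((s : ℂ) - x) ^ 2) (deriv (deriv F) x * ((s : ℂ) - x)) s := by
      intro s
      have := ((di s).pow 2).const_mul (deriv (deriv F) x / 2)
      have e : deriv (deriv F) x / 2 * (((2 : ℕ) : ℂ) * ((s : ℂ) - x) ^ (2 - 1) * 1) = deriv (deriv F) x * ((s : ℂ) - x) := by
        push_cast
        ring
      rw [e] at this
      exact this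
    have := seg (f := fun s : ℝ => F s - deriv F x * ((s : ℂ) - x) - deriv (deriv F) x / 2 * ((s : ℂ) - x) ^ 2)
      (f' := fun s : ℝ => deriv F s - deriv F x * 1 - deriv (deriv F) x * ((s : ℂ) - x))
      (fun u => ((d0 u).sub ((di u).const_mul _)).sub (dq u)) (x := x) (t := t) (c := M * |t - x| * |t - x|) (fun u hu => by
        rw [mul_one]
        refine (key3 u hu).trans ?_
        have := mem_seg hu
        have := abs_nonneg (u - x)
        gcongr)
    have e : (F t - deriv F x * ((t : ℂ) - x) - deriv (deriv F) x / 2 * ((t : ℂ) - x) ^ 2) -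
      (F x - deriv F x * ((x : ℂ) - x) - deriv (deriv F) x / 2 * ((x : ℂ) - x) ^ 2) =
        F t - F x - deriv F x * ((t : ℂ) - x) - deriv (deriv F) x / 2 * ((t : ℂ) - x) ^ 2 := by ring
    rw [e] at this
    calc _ ≤ _ := this
      _ = _ := by ring

/-- values of a function near a simple zero, and the corrected Lagrange function -/
theorem locR (r1 m M : ℝ) (hr1 : 0 < r1) (hm : 0 < m) (hM : 0 < M) :
    ∃ r C e : ℝ, 0 < r ∧ r ≤ r1 ∧ 1 ≤ C ∧ 0 < e ∧ ∀ (F : ℂ → ℂ) (x0 : ℝ), Differentiable ℂ F → (∀ t : ℝ, (F t).im = 0) →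
      (∀ t : ℝ, |t - x0| ≤ r1 → ‖deriv (deriv F) (t : ℂ)‖ ≤ M ∧ ‖deriv (deriv (deriv F)) (t : ℂ)‖ ≤ M) →
      m ≤ ‖deriv F x0‖ → ‖F x0‖ ≤ e →
      ∃ (x : ℝ) (κ : ℂ), ‖κ‖ ≤ C ∧ |x - x0| ≤ r / 2 ∧ |x - x0| ≤ C * ‖F x0‖ ∧ F x = 0 ∧ C⁻¹ ≤ ‖deriv F x‖ ∧
        ∀ t : ℝ, |t - x0| ≤ r → |t - x| ≤ C * ‖F t‖ ∧ ‖dslope F x t / deriv F x - κ * F t - 1‖ ≤ C * |t - x| ^ 2 := by
  set ρ : ℝ := min r1 (m / (4 * M)) with hρ
  have hρ0 : 0 < ρ := by positivity
  have hρ1 : ρ ≤ r1 := min_le_left _ _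
  have hρ2 : ρ ≤ m / (4 * M) := min_le_right _ _
  have hρM : M * ρ ≤ m / 4 := by
    calc M * ρ ≤ M * (m / (4 * M)) := mul_le_mul_of_nonneg_left hρ2 hM.le
      _ = m / 4 := by field_simp
  set C : ℝ := 1 + 2 / m + 2 * M / m ^ 2 + (2 * M / m + 2 * M / m ^ 2 * M) + 2 / m with hC
  have p1 : 0 ≤ 2 / m := by positivity
  have p2 : 0 ≤ 2 * M / m ^ 2 := by positivity
  have p3 : 0 ≤ 2 * M / m + 2 * M / m ^ 2 * M := by positivity
  refine ⟨ρ / 2, C, m * ρ / 32, by positivity, by linarith, by linarith, by positivity, fun F x0 hF hre hbd hd0 hFe => ?_⟩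
  set d : ℂ := deriv F x0 with hd
  have hdn : 0 < ‖d‖ := lt_of_lt_of_le hm hd0
  have hsub : ∀ {s t u : ℝ}, |s - x0| ≤ ρ → |t - x0| ≤ ρ → u ∈ uIcc s t → |u - x0| ≤ ρ := by
    intro s t u hs ht hu
    rw [abs_le] at hs ht ⊢
    rcases Set.mem_uIcc.1 hu with h | h <;> constructor <;> linarith [h.1, h.2, hs.1, hs.2, ht.1, ht.2]
  have hx0ρ : |x0 - x0| ≤ ρ := by simp [hρ0.le]
  have hder : ∀ t : ℝ, |t - x0| ≤ ρ → ‖deriv F t - d‖ ≤ ‖d‖ / 4 := by
    intro t ht
    have h1 := (tay hF (x := x0) (t := t) hM.le fun s hs => hbd s ((hsub hx0ρ ht hs).trans hρ1)).1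
    calc ‖deriv F t - d‖ ≤ M * |t - x0| := h1
      _ ≤ M * ρ := mul_le_mul_of_nonneg_left ht hM.le
      _ ≤ m / 4 := hρM
      _ ≤ ‖d‖ / 4 := by linarith
  have hmv : ∀ z w : ℝ, |z - x0| ≤ ρ → |w - x0| ≤ ρ → ‖F z - F w - d * ((z : ℂ) - w)‖ ≤ ‖d‖ / 2 * |z - w| := by
    intro z w hz hw
    have d0 : ∀ s : ℝ, HasDerivAt (fun s : ℝ => F s) (deriv F s) s := fun s => (hF s).hasDerivAt.comp_ofReal
    have di : ∀ s : ℝ, HasDerivAt (fun s : ℝ => (s : ℂ)) 1 s := fun s => Complex.ofRealCLM.hasDerivAt (x := s)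
    have := seg (f := fun s : ℝ => F s - d * (s : ℂ)) (f' := fun s : ℝ => deriv F s - d * 1)
      (fun u => (d0 u).sub ((di u).const_mul d)) (x := w) (t := z) (c := ‖d‖ / 2) (fun u hu => by
        rw [mul_one]
        have := hder u (hsub hw hz hu)
        linarith)
    calc ‖F z - F w - d * ((z : ℂ) - w)‖ = ‖(F z - d * z) - (F w - d * w)‖ := by congr 1; ring
      _ ≤ _ := this
  have hnr2 : ∀ t s : ℝ, ‖(t : ℂ) - s‖ = |t - s| := fun t s => by rw [← Complex.ofReal_sub, Complex.norm_real, Real.norm_eq_abs]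
  have hlow : ∀ z w : ℝ, |z - x0| ≤ ρ → |w - x0| ≤ ρ → ‖d‖ / 2 * |z - w| ≤ ‖F z - F w‖ := by
    intro z w hz hw
    have a1 := hmv z w hz hw
    have a2 : ‖d * ((z : ℂ) - w)‖ ≤ ‖F z - F w‖ + ‖F z - F w - d * ((z : ℂ) - w)‖ := by
      calc ‖d * ((z : ℂ) - w)‖ = ‖(F z - F w) - (F z - F w - d * ((z : ℂ) - w))‖ := by congr 1; ring
        _ ≤ _ := norm_sub_le _ _
    rw [norm_mul, hnr2] at a2
    linarith
  -- the zero
  set h : ℝ → ℝ := fun t => (F t * conj d).re / ‖d‖ ^ 2 with hh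
  have hhc : Continuous h := by
    have : Continuous fun t : ℝ => F t := hF.continuous.comp Complex.continuous_ofReal
    exact (Complex.continuous_re.comp (this.mul continuous_const)).div_const _
  have hinc : ∀ t s : ℝ, |t - x0| ≤ ρ → |s - x0| ≤ ρ → s ≤ t → (t - s) / 2 ≤ h t - h s := by
    intro t s ht hs hst
    have a1 := hmv t s ht hs
    have a2 : h t - h s = (t - s) + ((F t - F s - d * ((t : ℂ) - s)) * conj d).re / ‖d‖ ^ 2 := by
      simp only [hh]
      have e1 : (F t * conj d).re = (F s * conj d).re + ((F t - F s - d * ((t : ℂ) - s)) * conj d).re +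
          (d * conj d * ((t : ℂ) - s)).re := by
        rw [← Complex.add_re, ← Complex.add_re]
        congr 1
        ring
      have e2 : (d * conj d * ((t : ℂ) - s)).re = ‖d‖ ^ 2 * (t - s) := by
        rw [Complex.mul_conj, Complex.normSq_eq_norm_sq, ← Complex.ofReal_sub, ← Complex.ofReal_mul, Complex.ofReal_re]
      rw [e1, e2]
      field_simp
      ring
    have a3 : |((F t - F s - d * ((t : ℂ) - s)) * conj d).re / ‖d‖ ^ 2| ≤ (t - s) / 2 := by
      rw [abs_div, abs_of_pos (by positivity : 0 < ‖d‖ ^ 2), div_le_iff₀ (by positivity)]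
      calc |((F t - F s - d * ((t : ℂ) - s)) * conj d).re| ≤ ‖(F t - F s - d * ((t : ℂ) - s)) * conj d‖ := Complex.abs_re_le_norm _
        _ = ‖F t - F s - d * ((t : ℂ) - s)‖ * ‖d‖ := by rw [norm_mul, RCLike.norm_conj]
        _ ≤ (‖d‖ / 2 * |t - s|) * ‖d‖ := mul_le_mul_of_nonneg_right a1 (norm_nonneg _)
        _ = (t - s) / 2 * ‖d‖ ^ 2 := by rw [abs_of_nonneg (by linarith)]; ring
    have a4 := (abs_le.1 a3).1
    rw [a2]
    linarith
  have hhx0 : |h x0| ≤ ‖F x0‖ / ‖d‖ := by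
    simp only [hh]
    rw [abs_div, abs_of_pos (by positivity : 0 < ‖d‖ ^ 2), div_le_div_iff₀ (by positivity) hdn]
    calc |(F x0 * conj d).re| * ‖d‖ ≤ ‖F x0 * conj d‖ * ‖d‖ := mul_le_mul_of_nonneg_right (Complex.abs_re_le_norm _) hdn.le
      _ = ‖F x0‖ * ‖d‖ ^ 2 := by rw [norm_mul, RCLike.norm_conj]; ring
  set s : ℝ := 2 * ‖F x0‖ / ‖d‖ with hs
  have hs0 : 0 ≤ s := by positivity
  have hs1 : s ≤ ρ / 16 := by
    rw [hs, div_le_iff₀ hdn]
    calc 2 * ‖F x0‖ ≤ 2 * (m * ρ / 32) := by linarith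
      _ = ρ / 16 * m := by ring
      _ ≤ ρ / 16 * ‖d‖ := mul_le_mul_of_nonneg_left hd0 (by positivity)
  have hsm : s ≤ 2 / m * ‖F x0‖ := by
    rw [hs, mul_div_right_comm]
    exact mul_le_mul_of_nonneg_right (div_le_div_of_nonneg_left two_pos.le hm hd0) (norm_nonneg _)
  have hhs : |h x0| ≤ s / 2 := by
    refine hhx0.trans (le_of_eq ?_)
    rw [hs]; ring
  have b1 : h (x0 - s) ≤ 0 := by
    have := hinc x0 (x0 - s) (by simp [hρ0.le]) (by rw [abs_sub_comm, abs_of_nonneg (by linarith)]; linarith) (by linarith)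
    have := (abs_le.1 hhs).2
    linarith
  have b2 : 0 ≤ h (x0 + s) := by
    have := hinc (x0 + s) x0 (by rw [abs_of_nonneg (by linarith)]; linarith) (by simp [hρ0.le]) (by linarith)
    have := (abs_le.1 hhs).1
    linarith
  obtain ⟨x, hx, hxz⟩ := intermediate_value_Icc (by linarith : x0 - s ≤ x0 + s) hhc.continuousOn ⟨b1, b2⟩
  have hxs : |x - x0| ≤ s := abs_le.2 ⟨by linarith [hx.1], by linarith [hx.2]⟩
  have hxρ : |x - x0| ≤ ρ / 16 := hxs.trans hs1
  have hxρ1 : |x - x0| ≤ ρ := by linarith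
  have hdre : d.re ≠ 0 := by
    intro h9
    have h10 : ∀ t : ℝ, h t = 0 := by
      intro t
      simp only [hh]
      rw [Complex.mul_re, Complex.conj_re, h9, hre t]
      simp
    have h11 := hinc (x0 + ρ) x0 (by rw [abs_of_nonneg (by linarith)]; linarith) (by simp [hρ0.le]) (by linarith)
    rw [h10, h10] at h11
    linarith
  have hFx : F x = 0 := by
    simp only [hh] at hxz
    rw [Complex.mul_re, Complex.conj_re, hre x, zero_mul, sub_zero, div_eq_zero_iff] at hxz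
    rcases hxz with h9 | h9
    · rcases mul_eq_zero.1 h9 with h10 | h10
      · exact Complex.ext h10 (hre x)
      · exact absurd h10 hdre
    · exact absurd h9 (by positivity)
  -- the derivative at the zero
  set p : ℂ := deriv F x with hp
  have hpx : m / 2 ≤ ‖p‖ := by
    have a1 := hder x hxρ1
    have a2 : ‖d‖ ≤ ‖p‖ + ‖p - d‖ := by
      calc ‖d‖ = ‖p - (p - d)‖ := by congr 1; ring
        _ ≤ _ := norm_sub_le _ _
    linarith
  have hp0 : 0 < ‖p‖ := by linarith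
  have hpne : p ≠ 0 := norm_pos_iff.1 hp0
  set q : ℂ := deriv (deriv F) x with hq
  have hqM : ‖q‖ ≤ M := (hbd x (hxρ1.trans hρ1)).1
  set κ : ℂ := q / (2 * p ^ 2) with hκ
  have hκp : κ * p ^ 2 = q / 2 := by rw [hκ]; field_simp
  have hκK : ‖κ‖ ≤ 2 * M / m ^ 2 := by
    rw [hκ, norm_div, norm_mul, norm_pow]
    have e2 : ‖(2 : ℂ)‖ = 2 := by norm_num
    rw [e2, div_le_div_iff₀ (by positivity) (by positivity)]
    have a1 : (m / 2) ^ 2 ≤ ‖p‖ ^ 2 := pow_le_pow_left₀ (by positivity) hpx 2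
    have a2 : m ^ 2 ≤ 4 * ‖p‖ ^ 2 := by linarith
    calc ‖q‖ * m ^ 2 ≤ M * (4 * ‖p‖ ^ 2) := mul_le_mul hqM a2 (by positivity) hM.le
      _ = 2 * M * (2 * ‖p‖ ^ 2) := by ring
  refine ⟨x, κ, by linarith, by linarith, ?_, hFx, ?_, fun t ht => ⟨?_, ?_⟩⟩
  · calc |x - x0| ≤ 2 / m * ‖F x0‖ := hxs.trans hsm
      _ ≤ C * ‖F x0‖ := mul_le_mul_of_nonneg_right (by rw [hC]; linarith) (norm_nonneg _)
  · calc C⁻¹ ≤ (2 / m)⁻¹ := by
          rw [inv_le_inv₀ (by linarith) (by positivity)]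
          rw [hC]; linarith
      _ = m / 2 := by rw [inv_div]
      _ ≤ _ := hpx
  · have a1 := hlow t x (by linarith) hxρ1
    rw [hFx, sub_zero] at a1
    have a2 : m / 2 * |t - x| ≤ ‖F t‖ := (mul_le_mul_of_nonneg_right (by linarith) (abs_nonneg _)).trans a1
    calc |t - x| = 2 / m * (m / 2 * |t - x|) := by field_simp
      _ ≤ 2 / m * ‖F t‖ := by gcongr
      _ ≤ C * ‖F t‖ := mul_le_mul_of_nonneg_right (by rw [hC]; linarith) (norm_nonneg _)
  · have htρ : |t - x0| ≤ ρ := by linarith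
    by_cases htx : t = x
    · rw [htx, dslope_same, ← hp, div_self hpne, hFx, mul_zero, sub_zero, sub_self, norm_zero]
      positivity
    · have hne : (t : ℂ) ≠ x := fun h9 => htx (by exact_mod_cast h9)
      have hu0 : (t : ℂ) - x ≠ 0 := sub_ne_zero.2 hne
      have hun : 0 < |t - x| := abs_pos.2 (sub_ne_zero.2 htx)
      obtain ⟨-, t1, t2⟩ := tay hF (x := x) (t := t) hM.le fun s hs => hbd s ((hsub hxρ1 htρ hs).trans hρ1)
      rw [hFx, sub_zero, ← hp] at t1 t2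
      rw [← hq] at t2
      set u : ℂ := (t : ℂ) - x with hu
      have hun2 : ‖u‖ = |t - x| := hnr2 t x
      have e1 : dslope F x t / p - κ * F t - 1 = ((F t - p * u - q / 2 * u ^ 2) - κ * p * u * (F t - p * u)) / (u * p) := by
        rw [dslope_of_ne _ hne, slope_def_field, hFx, sub_zero, ← hu]
        rw [eq_div_iff (mul_ne_zero hu0 hpne)]
        have e3 : (F t / u / p - κ * F t - 1) * (u * p) = F t - κ * p * u * F t - u * p := by
          field_simp
        rw [e3]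
        linear_combination (-(u ^ 2)) * hκp
      rw [e1, norm_div, norm_mul u p, hun2, div_le_iff₀ (by positivity)]
      have n1 : ‖(F t - p * u - q / 2 * u ^ 2) - κ * p * u * (F t - p * u)‖ ≤ M * |t - x| ^ 3 + ‖κ‖ * ‖p‖ * |t - x| * (M * |t - x| ^ 2) := by
        refine (norm_sub_le _ _).trans (add_le_add t2 ?_)
        rw [norm_mul, norm_mul, norm_mul, hun2]
        gcongr
      refine n1.trans ?_
      have n2 : M ≤ 2 * M / m * ‖p‖ := by
        rw [div_mul_eq_mul_div, le_div_iff₀ hm]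
        nlinarith
      calc M * |t - x| ^ 3 + ‖κ‖ * ‖p‖ * |t - x| * (M * |t - x| ^ 2)
          ≤ (2 * M / m * ‖p‖) * |t - x| ^ 3 + (2 * M / m ^ 2) * ‖p‖ * |t - x| * (M * |t - x| ^ 2) := by gcongr
        _ = (2 * M / m + 2 * M / m ^ 2 * M) * |t - x| ^ 2 * (|t - x| * ‖p‖) := by ring
        _ ≤ C * |t - x| ^ 2 * (|t - x| * ‖p‖) := by
            have : 2 * M / m + 2 * M / m ^ 2 * M ≤ C := by rw [hC]; linarith
            gcongr

end Pool.Agent.Q97.RI
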