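import Pool.Agent.Q97.RI.Glob

set_option autoImplicit false

/-!
# Project RG: measures
-/

open Complex Filter Topology Set Metric MeasureTheory
open scoped ComplexConjugate

namespace Pool.Agent.Q97.RI

/-- a function which is close to the indicator function of a set -/
lemma ind_close {μ : Measure ℝ} {A : Set ℝ} (hA : MeasurableSet A) {h u : ℝ → ℝ} (hh : Integrable h μ) (hu : Integrable u μ) {C : ℝ}
    (hle : ∀ t, |h t - A.indicator 1 t| ≤ C * u t) : μ A ≠ ⊤ ∧ |(∫ t, h t ∂μ) - μ.real A| ≤ C * ∫ t, u t ∂μ := by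
  have hm : AEStronglyMeasurable (A.indicator (1 : ℝ → ℝ)) μ := (aestronglyMeasurable_const (b := (1 : ℝ))).indicator hA
  have hi : Integrable (A.indicator (1 : ℝ → ℝ)) μ := by
    refine ((hh.abs).add (hu.const_mul C)).mono' hm (Eventually.of_forall fun t => ?_)
    rw [Real.norm_eq_abs]
    have a1 := hle t
    have a2 : |A.indicator (1 : ℝ → ℝ) t| ≤ |h t| + |h t - A.indicator 1 t| := by
      calc |A.indicator (1 : ℝ → ℝ) t| = |h t - (h t - A.indicator 1 t)| := by congr 1; ring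
        _ ≤ _ := abs_sub _ _
    simp only [Pi.add_apply]
    linarith
  have hfin : μ A ≠ ⊤ := by
    have h1 : ∫⁻ t, ‖A.indicator (1 : ℝ → ℝ) t‖ₑ ∂μ < ⊤ := hi.2
    have h2 : ∫⁻ t, ‖A.indicator (1 : ℝ → ℝ) t‖ₑ ∂μ = μ A := by
      have : (fun t => ‖A.indicator (1 : ℝ → ℝ) t‖ₑ) = A.indicator (1 : ℝ → ENNReal) := by
        funext t
        by_cases ht : t ∈ A
        · rw [indicator_of_mem ht, indicator_of_mem ht]
          simp
        · rw [indicator_of_notMem ht, indicator_of_notMem ht]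
          simp
      rw [this, lintegral_indicator_one hA]
    rw [h2] at h1
    exact h1.ne
  refine ⟨hfin, ?_⟩
  have e1 : ∫ t, A.indicator (1 : ℝ → ℝ) t ∂μ = μ.real A := by
    rw [integral_indicator hA]
    simp
  rw [← e1, ← integral_sub hh hi]
  calc |∫ t, (h t - A.indicator 1 t) ∂μ| ≤ ∫ t, |h t - A.indicator 1 t| ∂μ := abs_integral_le_integral_abs
    _ ≤ ∫ t, C * u t ∂μ := integral_mono (hh.sub hi).abs (hu.const_mul C) hle
    _ = _ := integral_const_mul _ _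

/-- the masses of two measures -/
theorem two_meas {μ ν : Measure ℝ} {Z : Finset ℝ} {r : ℝ → ℝ} {F : ℝ → ℝ} {g : ℝ → ℝ → ℝ} {C C' : ℝ} {s t : ℝ} {α β : ℝ}
    (hF1 : Integrable F μ) (hF2 : Integrable F ν) (hα : 0 ≤ α) (hFa : α * ∫ y, F y ∂ν ≤ ∫ y, F y ∂μ) (hFb : ∫ y, F y ∂μ ≤ β * ∫ y, F y ∂ν)
    (hg1 : ∀ x ∈ Z, Integrable (g x) μ) (hg2 : ∀ x ∈ Z, Integrable (g x) ν)
    (hga : ∀ x ∈ Z, α * ∫ y, g x y ∂ν ≤ ∫ y, g x y ∂μ) (hgb : ∀ x ∈ Z, ∫ y, g x y ∂μ ≤ β * ∫ y, g x y ∂ν)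
    (hC : 0 ≤ C) (hC' : 0 ≤ C') (hF0 : 0 < ∫ y, F y ∂ν)
    (h1 : ∀ x ∈ Z, ∀ y, |g x y - (Bk r x).indicator 1 y| ≤ C * F y)
    (h2 : ∀ y : ℝ, |(Ioo s t).indicator 1 y - ∑ x0 ∈ Z.filter (fun x0 => s < x0 ∧ x0 < t), (Bk r x0).indicator 1 y| ≤ C' * F y) :
    μ (Ioo s t) ≠ ⊤ ∧ α * ν.real (Ioo s t) - β * ((2 * C' + 2 * Z.card * C) * ∫ y, F y ∂ν) ≤ μ.real (Ioo s t) ∧
      μ.real (Ioo s t) ≤ β * ν.real (Ioo s t) + β * ((2 * C' + 2 * Z.card * C) * ∫ y, F y ∂ν) := by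
  classical
  set Z1 : Finset ℝ := Z.filter (fun x0 => s < x0 ∧ x0 < t) with hZ1
  have hsub : ∀ x ∈ Z1, x ∈ Z := fun x hx => (Finset.mem_filter.1 hx).1
  have hB : ∀ x, MeasurableSet (Bk r x) := fun x => measurableSet_Icc
  -- one measure
  have one : ∀ m : Measure ℝ, Integrable F m → (∀ x ∈ Z, Integrable (g x) m) →
      m (Ioo s t) ≠ ⊤ ∧ |m.real (Ioo s t) - ∑ x ∈ Z1, m.real (Bk r x)| ≤ C' * ∫ y, F y ∂m ∧
        ∀ x ∈ Z, |(∫ y, g x y ∂m) - m.real (Bk r x)| ≤ C * ∫ y, F y ∂m := by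
    intro m hFm hgm
    have k1 : ∀ x ∈ Z, m (Bk r x) ≠ ⊤ ∧ |(∫ y, g x y ∂m) - m.real (Bk r x)| ≤ C * ∫ y, F y ∂m := fun x hx =>
      ind_close (hB x) (hgm x hx) hFm (h1 x hx)
    have k2 : ∀ x ∈ Z, Integrable ((Bk r x).indicator (1 : ℝ → ℝ)) m := fun x hx =>
      (integrable_indicator_iff (hB x)).2 (integrableOn_const (k1 x hx).1)
    have k3 : Integrable (fun y => ∑ x0 ∈ Z1, (Bk r x0).indicator (1 : ℝ → ℝ) y) m :=
      integrable_finsetSum _ fun x hx => k2 x (hsub x hx)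
    have k4 := ind_close (measurableSet_Ioo (a := s) (b := t)) k3 hFm (C := C') (fun y => by rw [abs_sub_comm]; exact h2 y)
    refine ⟨k4.1, ?_, fun x hx => (k1 x hx).2⟩
    have k5 : ∫ y, ∑ x0 ∈ Z1, (Bk r x0).indicator (1 : ℝ → ℝ) y ∂m = ∑ x ∈ Z1, m.real (Bk r x) := by
      rw [integral_finsetSum _ fun x hx => k2 x (hsub x hx)]
      refine Finset.sum_congr rfl fun x _ => ?_
      rw [integral_indicator (hB x)]
      simp
    rw [abs_sub_comm, ← k5]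
    exact k4.2
  obtain ⟨a1, a2, a3⟩ := one μ hF1 hg1
  obtain ⟨-, b2, b3⟩ := one ν hF2 hg2
  set δ : ℝ := ∫ y, F y ∂ν with hδ
  have hαβ : α ≤ β := le_of_mul_le_mul_right (hFa.trans hFb) hF0
  have hβ : 0 ≤ β := hα.trans hαβ
  have hc1 : (Z1.card : ℝ) ≤ Z.card := by exact_mod_cast Finset.card_filter_le _ _
  have hc0 : (0 : ℝ) ≤ Z1.card := Nat.cast_nonneg _
  have hsumc : ∀ e : ℝ, ∑ x ∈ Z1, e = Z1.card * e := fun e => by rw [Finset.sum_const, nsmul_eq_mul]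
  have c1 : ∑ x ∈ Z1, μ.real (Bk r x) ≤ β * ∑ x ∈ Z1, ν.real (Bk r x) + 2 * Z.card * C * (β * δ) := by
    have : ∑ x ∈ Z1, μ.real (Bk r x) ≤ ∑ x ∈ Z1, (β * ν.real (Bk r x) + 2 * C * (β * δ)) := by
      refine Finset.sum_le_sum fun x hx => ?_
      have d1 := (abs_le.1 (a3 x (hsub x hx))).1
      have d2 := (abs_le.1 (b3 x (hsub x hx))).2
      have d3 := hgb x (hsub x hx)
      have d4 : C * ∫ y, F y ∂μ ≤ C * (β * δ) := mul_le_mul_of_nonneg_left hFb hC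
      have d5 : β * ((∫ y, g x y ∂ν) - ν.real (Bk r x)) ≤ β * (C * δ) := mul_le_mul_of_nonneg_left d2 hβ
      linarith
    refine this.trans ?_
    rw [Finset.sum_add_distrib, ← Finset.mul_sum, hsumc]
    have d6 : (Z1.card : ℝ) * (2 * C * (β * δ)) ≤ Z.card * (2 * C * (β * δ)) := mul_le_mul_of_nonneg_right hc1 (by positivity)
    linarith
  have c2 : α * ∑ x ∈ Z1, ν.real (Bk r x) - 2 * Z.card * C * (β * δ) ≤ ∑ x ∈ Z1, μ.real (Bk r x) := by
    have : ∑ x ∈ Z1, (α * ν.real (Bk r x) - 2 * C * (β * δ)) ≤ ∑ x ∈ Z1, μ.real (Bk r x) := by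
      refine Finset.sum_le_sum fun x hx => ?_
      have d1 := (abs_le.1 (a3 x (hsub x hx))).2
      have d2 := (abs_le.1 (b3 x (hsub x hx))).1
      have d3 := hga x (hsub x hx)
      have d4 : C * ∫ y, F y ∂μ ≤ C * (β * δ) := mul_le_mul_of_nonneg_left hFb hC
      have d5 : α * (-(C * δ)) ≤ α * ((∫ y, g x y ∂ν) - ν.real (Bk r x)) := mul_le_mul_of_nonneg_left d2 hα
      have d6 : α * (C * δ) ≤ β * (C * δ) := mul_le_mul_of_nonneg_right hαβ (by positivity)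
      linarith
    refine le_trans ?_ this
    rw [Finset.sum_sub_distrib, ← Finset.mul_sum, hsumc]
    have d6 : (Z1.card : ℝ) * (2 * C * (β * δ)) ≤ Z.card * (2 * C * (β * δ)) := mul_le_mul_of_nonneg_right hc1 (by positivity)
    linarith
  have e1 : C' * ∫ y, F y ∂μ ≤ C' * (β * δ) := mul_le_mul_of_nonneg_left hFb hC'
  refine ⟨a1, ?_, ?_⟩
  · have f1 := (abs_le.1 a2).1
    have f2 := (abs_le.1 b2).2
    have f3 : α * (ν.real (Ioo s t) - ∑ x ∈ Z1, ν.real (Bk r x)) ≤ α * (C' * δ) := mul_le_mul_of_nonneg_left f2 hα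
    have f4 : α * (C' * δ) ≤ β * (C' * δ) := mul_le_mul_of_nonneg_right hαβ (by positivity)
    linarith
  · have f1 := (abs_le.1 a2).2
    have f2 := (abs_le.1 b2).1
    have f3 : β * (-(C' * δ)) ≤ β * (ν.real (Ioo s t) - ∑ x ∈ Z1, ν.real (Bk r x)) := mul_le_mul_of_nonneg_left f2 hβ
    linarith

end Pool.Agent.Q97.RI
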