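import Pool.Agent.Q97.RI.Core
import Pool.Agent.Q129.EX.Den
import Pool.Agent.Q65.EX.UZt

set_option autoImplicit false

/-!
# Project RG: smooth test functions

The lemma `mollS` is `Pool.Agent.Q129.EX.moll` with smooth functions.
-/

open Complex Filter Topology Set Metric MeasureTheory
open scoped ComplexConjugate Convolution
open Pool.Agent.Y23

namespace Pool.Agent.Q97.RI

lemma mollS {b : ℝ} {f : ℝ → ℂ} (hf : Hd b f) {δ ε : ℝ} (hδ : 0 < δ) (hε : 0 < ε) :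
    ∃ g : ℝ → ℂ, ContDiff ℝ ((⊤ : ℕ∞) : WithTop ℕ∞) g ∧ (∀ x, b + δ ≤ |x| → g x = 0) ∧ Hd (b + δ) g ∧ LL (fun x => f x - g x) ≤ ε := by
  set d : ℕ → ℝ := fun n => δ / ((n : ℝ) + 2) with hd
  have hd0 : ∀ n, 0 < d n := fun n => by simp only [hd]; positivity
  have hdδ : ∀ n, d n < δ := fun n => by
    simp only [hd]
    rw [div_lt_iff₀ (by positivity)]
    have : (0 : ℝ) ≤ n := Nat.cast_nonneg n
    nlinarith
  have hdl : Tendsto d atTop (𝓝 0) := by
    have h2 : Tendsto (fun n : ℕ => ((n : ℝ) + 2)) atTop atTop :=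
      tendsto_atTop_add_const_right _ _ tendsto_natCast_atTop_atTop
    have h3 := (tendsto_inv_atTop_zero.comp h2).const_mul δ
    rw [mul_zero] at h3
    refine h3.congr fun n => ?_
    simp only [hd, Function.comp, div_eq_mul_inv]
  set φ : ℕ → ContDiffBump (0 : ℝ) := fun n =>
    { rIn := d n / 2, rOut := d n, rIn_pos := half_pos (hd0 n), rIn_lt_rOut := half_lt_self (hd0 n) } with hφ
  set ρ : ℕ → ℝ → ℝ := fun n => (φ n).normed volume with hρ
  have hρ0 : ∀ n x, 0 ≤ ρ n x := fun n x => (φ n).nonneg_normed x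
  have hρ1 : ∀ n, ∫ x, ρ n x = 1 := fun n => (φ n).integral_normed
  have hρi : ∀ n, Integrable (ρ n) := fun n => (φ n).integrable_normed
  have hρs : ∀ n x, d n ≤ |x| → ρ n x = 0 := by
    intro n x hx
    by_contra h
    have h1 : x ∈ Function.support ((φ n).normed volume) := h
    rw [(φ n).support_normed_eq, Metric.mem_ball, dist_zero_right, Real.norm_eq_abs] at h1
    exact absurd h1 (not_lt.2 hx)
  set ψ : ℕ → ℝ → ℂ := fun n x => (ρ n x : ℂ) with hψ
  have hψc : ∀ n, ContDiff ℝ ((⊤ : ℕ∞) : WithTop ℕ∞) (ψ n) := fun n => Complex.ofRealCLM.contDiff.comp (φ n).contDiff_normed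
  have hψs : ∀ n, HasCompactSupport (ψ n) := fun n =>
    ((φ n).hasCompactSupport_normed (μ := volume)).comp_left Complex.ofReal_zero
  have hψk : ∀ n, Continuous (ψ n) := fun n => (hψc n).continuous
  set g : ℕ → ℝ → ℂ := fun n => (ψ n ⋆[ContinuousLinearMap.mul ℝ ℂ, volume] f) with hg
  have hgc : ∀ n, ContDiff ℝ ((⊤ : ℕ∞) : WithTop ℕ∞) (g n) := fun n =>
    (hψs n).contDiff_convolution_left _ (hψc n) hf.1.integrable.locallyIntegrable
  have hgT : ∀ n w, TT (g n) w = TT (ψ n) w * TT f w := fun n w => Pool.Agent.Q129.EX.TT_conv (hψk n) (hψs n) hf.1 w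
  have hg0 : ∀ n x, b + δ ≤ |x| → g n x = 0 := by
    intro n x hx
    simp only [hg]
    rw [convolution_def]
    have : (fun t : ℝ => (ContinuousLinearMap.mul ℝ ℂ) (ψ n t) (f (x - t))) = fun _ => 0 := by
      funext t
      rw [ContinuousLinearMap.mul_apply']
      by_cases ht : d n ≤ |t|
      · simp only [hψ]
        rw [hρs n t ht, Complex.ofReal_zero, zero_mul]
      · rw [not_le] at ht
        have h1 : b < |x - t| := by
          have := abs_sub_abs_le_abs_sub x t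
          have := hdδ n
          linarith
        rw [hf.1.2 _ h1, mul_zero]
    rw [this, integral_zero]
  -- bounds for the transform of the bump functions
  have hψb : ∀ n (v : ℝ), ‖TT (ψ n) (v * I)‖ ≤ 1 := by
    intro n v
    rw [← hρ1 n]
    unfold TT
    refine norm_integral_le_of_norm_le (hρi n) (Eventually.of_forall fun x => ?_)
    rw [norm_mul]
    have e : ‖cexp (v * I * x)‖ = 1 := by
      rw [Complex.norm_exp]
      have : ((v : ℂ) * I * x).re = 0 := by simp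
      rw [this, Real.exp_zero]
    rw [e, mul_one]
    simp only [hψ]
    rw [Complex.norm_real, Real.norm_eq_abs, abs_of_nonneg (hρ0 n x)]
  have hψl : ∀ n (v : ℝ), ‖1 - TT (ψ n) (v * I)‖ ≤ |v| * d n := by
    intro n v
    have i1 : Integrable (ψ n) := (hψk n).integrable_of_hasCompactSupport (hψs n)
    have i2 : Integrable (fun x : ℝ => ψ n x * cexp (v * I * x)) :=
      ((hψk n).mul (by fun_prop)).integrable_of_hasCompactSupport (hψs n).mul_right
    have e1 : (1 : ℂ) = ∫ x, ψ n x := by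
      simp only [hψ]
      rw [integral_complex_ofReal, hρ1 n, Complex.ofReal_one]
    have e2 : 1 - TT (ψ n) (v * I) = ∫ x, (ψ n x - ψ n x * cexp (v * I * x)) := by
      rw [integral_sub i1 i2, ← e1]
      rfl
    have e3 : |v| * d n = ∫ x, ρ n x * (|v| * d n) := by
      rw [integral_mul_const, hρ1 n, one_mul]
    rw [e2, e3]
    refine norm_integral_le_of_norm_le ((hρi n).mul_const _) (Eventually.of_forall fun x => ?_)
    by_cases hx : d n ≤ |x|
    · simp only [hψ]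
      rw [hρs n x hx]
      simp
    · rw [not_le] at hx
      have e4 : ψ n x - ψ n x * cexp (v * I * x) = -(ψ n x * (cexp (I * ((v * x : ℝ) : ℂ)) - 1)) := by
        have : (v : ℂ) * I * x = I * ((v * x : ℝ) : ℂ) := by push_cast; ring
        rw [this]
        ring
      rw [e4, norm_neg, norm_mul]
      have h1 : ‖cexp (I * ((v * x : ℝ) : ℂ)) - 1‖ ≤ |v| * d n := by
        refine Real.norm_exp_I_mul_ofReal_sub_one_le.trans ?_
        rw [Real.norm_eq_abs, abs_mul]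
        exact mul_le_mul_of_nonneg_left hx.le (abs_nonneg _)
      have h2 : ‖ψ n x‖ = ρ n x := by
        simp only [hψ]
        rw [Complex.norm_real, Real.norm_eq_abs, abs_of_nonneg (hρ0 n x)]
      rw [h2]
      exact mul_le_mul_of_nonneg_left h1 (hρ0 n x)
  have hgm : ∀ n, Fa (b + δ) (g n) := by
    intro n
    have hs : HasCompactSupport (g n) := by
      refine HasCompactSupport.intro (isCompact_Icc (a := -(b + δ)) (b := b + δ)) fun x hx => hg0 n x ?_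
      rw [Set.mem_Icc, ← abs_le, not_le] at hx
      exact hx.le
    exact ⟨(hgc n).continuous.memLp_of_hasCompactSupport hs, fun x hx => hg0 n x hx.le⟩
  have hgH : ∀ n, Hd (b + δ) (g n) := by
    intro n
    refine ⟨hgm n, hf.2.mono' (LL_cont (hgm n)).aestronglyMeasurable (Eventually.of_forall fun v => ?_)⟩
    rw [Real.norm_eq_abs, abs_of_nonneg (mul_nonneg (Lg_pos v).le (sq_nonneg _)), hgT, norm_mul]
    refine mul_le_mul_of_nonneg_left ?_ (Lg_pos v).le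
    have h1 := hψb n v
    have h2 := norm_nonneg (TT (ψ n) (v * I))
    have h3 := norm_nonneg (TT f (v * I))
    refine pow_le_pow_left₀ (by positivity) ?_ 2
    nlinarith
  have hfb : Fa (b + δ) f := hf.1.mono (by linarith)
  have hlim : Tendsto (fun n => ∫ v : ℝ, Lg v * ‖TT (fun x => f x - g n x) (v * I)‖ ^ 2) atTop
      (𝓝 (∫ _v : ℝ, (0 : ℝ))) := by
    refine tendsto_integral_of_dominated_convergence (fun v => 4 * (Lg v * ‖TT f (v * I)‖ ^ 2))
      (fun n => (LL_cont (hfb.sub (hgm n))).aestronglyMeasurable) (hf.2.const_mul 4)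
      (fun n => Eventually.of_forall fun v => ?_) (Eventually.of_forall fun v => ?_)
    · rw [Real.norm_eq_abs, abs_of_nonneg (mul_nonneg (Lg_pos v).le (sq_nonneg _)), TT_sub hfb (hgm n), hgT]
      have e : TT f (v * I) - TT (ψ n) (v * I) * TT f (v * I) = (1 - TT (ψ n) (v * I)) * TT f (v * I) := by ring
      rw [e, norm_mul, mul_pow]
      have h1 : ‖1 - TT (ψ n) (v * I)‖ ≤ 2 := by
        refine (norm_sub_le _ _).trans ?_
        rw [norm_one]
        linarith [hψb n v]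
      have h2 : ‖1 - TT (ψ n) (v * I)‖ ^ 2 ≤ 4 := by
        nlinarith [norm_nonneg (1 - TT (ψ n) (v * I))]
      have h3 := Lg_pos v
      have h4 := sq_nonneg ‖TT f (v * I)‖
      have h5 : 0 ≤ Lg v * ‖TT f (v * I)‖ ^ 2 := mul_nonneg h3.le h4
      nlinarith
    · have h1 : Tendsto (fun n => ‖1 - TT (ψ n) (v * I)‖) atTop (𝓝 0) := by
        refine squeeze_zero (fun n => norm_nonneg _) (fun n => hψl n v) ?_
        have := hdl.const_mul |v|
        rwa [mul_zero] at this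
      have h2 := ((h1.pow 2).mul_const (‖TT f (v * I)‖ ^ 2)).const_mul (Lg v)
      have e0 : Lg v * ((0 : ℝ) ^ 2 * ‖TT f (v * I)‖ ^ 2) = 0 := by ring
      rw [e0] at h2
      refine h2.congr fun n => ?_
      rw [TT_sub hfb (hgm n), hgT]
      have e : TT f (v * I) - TT (ψ n) (v * I) * TT f (v * I) = (1 - TT (ψ n) (v * I)) * TT f (v * I) := by ring
      rw [e, norm_mul, mul_pow]
  rw [integral_zero] at hlim
  obtain ⟨n, hn⟩ := (hlim.eventually (gt_mem_nhds hε)).exists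
  exact ⟨g n, hgc n, hg0 n, hgH n, hn.le⟩

/-- smooth functions with compact support in `(-a, a)` -/
def Smo (a : ℝ) (g : ℝ → ℂ) : Prop := ContDiff ℝ ((⊤ : ℕ∞) : WithTop ℕ∞) g ∧ ∃ b : ℝ, 0 < b ∧ b < a ∧ ∀ x : ℝ, b ≤ |x| → g x = 0

lemma Smo.sub {a : ℝ} {f g : ℝ → ℂ} (hf : Smo a f) (hg : Smo a g) : Smo a (fun x => f x - g x) := by
  obtain ⟨h1, b, h2, h3, h4⟩ := hf
  obtain ⟨k1, c, k2, k3, k4⟩ := hg
  refine ⟨h1.sub k1, max b c, lt_max_of_lt_left h2, max_lt h3 k3, fun x hx => ?_⟩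
  show f x - g x = 0
  rw [h4 x ((le_max_left _ _).trans hx), k4 x ((le_max_right _ _).trans hx), sub_zero]

lemma smo_seq {a : ℝ} {f : ℝ → ℂ} (ha : 0 < a) (hf : Hd a f) :
    ∃ g : ℕ → ℝ → ℂ, (∀ k, Smo a (g k)) ∧ (∀ k, Hd a (g k)) ∧ ∀ k : ℕ, LL (fun x => f x - g k x) ≤ 1 / ((k : ℝ) + 1) := by
  have h : ∀ k : ℕ, ∃ g : ℝ → ℂ, Smo a g ∧ Hd a g ∧ LL (fun x => f x - g x) ≤ 1 / ((k : ℝ) + 1) := by
    intro k
    have hε : (0 : ℝ) < 1 / ((k : ℝ) + 1) := by positivity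
    obtain ⟨r, hr1, hr2, hr⟩ := Pool.Agent.Q129.EX.dil_conv hf (ε := 1 / ((k : ℝ) + 1) / 4) (by positivity)
    have h1 := Pool.Agent.Q129.EX.Hd_dil hr1 hf
    have hra : r * a < a := by nlinarith
    obtain ⟨g, g1, g2, g3, g4⟩ := mollS h1 (δ := (a - r * a) / 2) (ε := 1 / ((k : ℝ) + 1) / 4) (by linarith) (by positivity)
    have hb : r * a + (a - r * a) / 2 < a := by linarith
    have k1 : Hd a (fun x => f (x / r)) := ⟨h1.1.mono hra.le, h1.2⟩
    have k2 : Hd a g := ⟨g3.1.mono hb.le, g3.2⟩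
    refine ⟨g, ⟨g1, r * a + (a - r * a) / 2, ?_, hb, g2⟩, k2, ?_⟩
    · have : 0 < r * a := mul_pos (by linarith) ha
      linarith
    · have h2 := LL_add_le (hf.sub k1) (k1.sub k2)
      have e : (fun x => (f x - f (x / r)) + (f (x / r) - g x)) = fun x => f x - g x := by
        funext x
        ring
      rw [e] at h2
      linarith
  choose g hg1 hg2 hg3 using h
  exact ⟨g, hg1, hg2, hg3⟩

/-- the form is continuous -/
lemma QQ_diff {a : ℝ} (ha : 0 < a) {f g : ℝ → ℂ} (hf : Hd a f) (hg : Hd a g) {s : ℝ} (hs : 0 < s) :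
    |QQ f - QQ g| ≤ 1 / s * SS (fun x => f x - g x) + s / 2 * (SS f + SS g) := by
  have hF := hf.dom ha
  have hG := hg.dom ha
  have hD := (hf.sub hg).dom ha
  have hsum : ∀ {u : ℝ → ℂ}, Dom u → Summable (fun ρ : Zt => (mu ρ : ℝ) * (GG u u ((ρ : ℂ) - 1 / 2)).re) := by
    intro u hu
    refine Summable.of_norm (Summable.of_nonneg_of_le (fun _ => norm_nonneg _) (fun ρ => ?_) ((hu.add hu.refl).mul_left (1 / 2)))
    rw [norm_mul, Real.norm_natCast, Real.norm_eq_abs]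
    have h := mul_le_mul_of_nonneg_left ((Complex.abs_re_le_norm _).trans (norm_GG_zero u u ((ρ : ℂ) - 1 / 2)))
      (Nat.cast_nonneg (mu ρ) : (0 : ℝ) ≤ mu ρ)
    calc _ ≤ _ := h
      _ = _ := by ring
  have hrefl : ∀ u : ℝ → ℂ, ∑' ρ : Zt, (mu ρ : ℝ) * ‖TT u (-conj ((ρ : ℂ) - 1 / 2))‖ ^ 2 = SS u := by
    intro u
    unfold SS
    rw [← rfZ.tsum_eq (fun ρ : Zt => (mu ρ : ℝ) * ‖TT u ((ρ : ℂ) - 1 / 2)‖ ^ 2)]
    refine tsum_congr fun ρ => ?_
    rw [rfZ_sub, mu_rfZ]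
  have key : ∀ ρ : Zt, ‖(mu ρ : ℝ) * (GG f f ((ρ : ℂ) - 1 / 2)).re - (mu ρ : ℝ) * (GG g g ((ρ : ℂ) - 1 / 2)).re‖ ≤
      1 / (2 * s) * ((mu ρ : ℝ) * ‖TT (fun x => f x - g x) ((ρ : ℂ) - 1 / 2)‖ ^ 2 +
        (mu ρ : ℝ) * ‖TT (fun x => f x - g x) (-conj ((ρ : ℂ) - 1 / 2))‖ ^ 2) +
      s / 2 * ((mu ρ : ℝ) * ‖TT f (-conj ((ρ : ℂ) - 1 / 2))‖ ^ 2 + (mu ρ : ℝ) * ‖TT g ((ρ : ℂ) - 1 / 2)‖ ^ 2) := by
    intro ρ
    set w : ℂ := (ρ : ℂ) - 1 / 2
    rw [TT_sub hf.1 hg.1, TT_sub hf.1 hg.1]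
    unfold GG
    set x := TT f w
    set x' := TT f (-conj w)
    set y := TT g w
    set y' := TT g (-conj w)
    have e1 : (mu ρ : ℝ) * (x * conj x').re - (mu ρ : ℝ) * (y * conj y').re = (mu ρ : ℝ) * ((x - y) * conj x' + y * conj (x' - y')).re := by
      rw [← mul_sub, ← Complex.sub_re]
      congr 2
      rw [map_sub]
      ring
    rw [e1, norm_mul, Real.norm_natCast, Real.norm_eq_abs]
    have e2 : |((x - y) * conj x' + y * conj (x' - y')).re| ≤ ‖x - y‖ * ‖x'‖ + ‖y‖ * ‖x' - y'‖ := by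
      refine (Complex.abs_re_le_norm _).trans ((norm_add_le _ _).trans ?_)
      rw [norm_mul, norm_mul, RCLike.norm_conj, RCLike.norm_conj]
    have e3 : ‖x - y‖ * ‖x'‖ ≤ 1 / (2 * s) * ‖x - y‖ ^ 2 + s / 2 * ‖x'‖ ^ 2 := by
      have : 0 ≤ (‖x - y‖ - s * ‖x'‖) ^ 2 / (2 * s) := by positivity
      have e : (‖x - y‖ - s * ‖x'‖) ^ 2 / (2 * s) = 1 / (2 * s) * ‖x - y‖ ^ 2 + s / 2 * ‖x'‖ ^ 2 - ‖x - y‖ * ‖x'‖ := by
        field_simp
        ring
      linarith
    have e4 : ‖y‖ * ‖x' - y'‖ ≤ 1 / (2 * s) * ‖x' - y'‖ ^ 2 + s / 2 * ‖y‖ ^ 2 := by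
      have : 0 ≤ (‖x' - y'‖ - s * ‖y‖) ^ 2 / (2 * s) := by positivity
      have e : (‖x' - y'‖ - s * ‖y‖) ^ 2 / (2 * s) = 1 / (2 * s) * ‖x' - y'‖ ^ 2 + s / 2 * ‖y‖ ^ 2 - ‖y‖ * ‖x' - y'‖ := by
        field_simp
        ring
      linarith
    have e5 := mul_le_mul_of_nonneg_left (e2.trans (add_le_add e3 e4)) (Nat.cast_nonneg (mu ρ) : (0 : ℝ) ≤ mu ρ)
    calc _ ≤ _ := e5
      _ = _ := by ring
  have hs1 : Summable fun ρ : Zt => 1 / (2 * s) * ((mu ρ : ℝ) * ‖TT (fun x => f x - g x) ((ρ : ℂ) - 1 / 2)‖ ^ 2 +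
        (mu ρ : ℝ) * ‖TT (fun x => f x - g x) (-conj ((ρ : ℂ) - 1 / 2))‖ ^ 2) := (hD.add hD.refl).mul_left _
  have hs2 : Summable fun ρ : Zt => s / 2 * ((mu ρ : ℝ) * ‖TT f (-conj ((ρ : ℂ) - 1 / 2))‖ ^ 2 + (mu ρ : ℝ) * ‖TT g ((ρ : ℂ) - 1 / 2)‖ ^ 2) :=
    (hF.refl.add hG).mul_left _
  have e : QQ f - QQ g = ∑' ρ : Zt, ((mu ρ : ℝ) * (GG f f ((ρ : ℂ) - 1 / 2)).re - (mu ρ : ℝ) * (GG g g ((ρ : ℂ) - 1 / 2)).re) :=
    ((hsum hF).tsum_sub (hsum hG)).symm
  rw [e, ← Real.norm_eq_abs]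
  refine (tsum_of_norm_bounded (hs1.add hs2).hasSum key).trans (le_of_eq ?_)
  rw [hs1.tsum_add hs2, tsum_mul_left, tsum_mul_left, hD.tsum_add hD.refl, hF.refl.tsum_add hG, hrefl, hrefl]
  show 1 / (2 * s) * (SS (fun x => f x - g x) + SS (fun x => f x - g x)) + s / 2 * (SS f + SS g) = _
  have : 1 / (2 * s) * (SS (fun x => f x - g x) + SS (fun x => f x - g x)) = 1 / s * SS (fun x => f x - g x) := by
    generalize SS (fun x => f x - g x) = X
    field_simp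
    ring
  rw [this]

end Pool.Agent.Q97.RI
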